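import Pool.Agent.Helper32.AG.Goals

/-!
# PROJECT AG, packet CNV: a minimal normal subgroup of a finite solvable group as a module
-/

set_option autoImplicit false

namespace Pool.Agent.Helper85.AG

open Pool.Agent.Helper32.AG

universe u

/-- A minimal normal subgroup. -/
theorem exists_min (G : Type u) [Group G] [Finite G] [Nontrivial G] :
    ∃ V : Subgroup G, V.Normal ∧ V ≠ ⊥ ∧
      ∀ W : Subgroup G, W.Normal → W ≤ V → W = ⊥ ∨ W = V := by
  have hwf : WellFounded ((· < ·) : Subgroup G → Subgroup G → Prop) := wellFounded_lt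
  obtain ⟨V, hV, hm⟩ := hwf.has_min {V : Subgroup G | V.Normal ∧ V ≠ ⊥}
    ⟨⊤, inferInstance, top_ne_bot⟩
  refine ⟨V, hV.1, hV.2, fun W hW hWV => ?_⟩
  by_cases h0 : W = ⊥
  · exact Or.inl h0
  · refine Or.inr ?_
    by_contra hne
    exact hm W ⟨hW, h0⟩ (lt_of_le_of_ne hWV hne)

/-- A minimal normal subgroup of a solvable group is commutative. -/
theorem min_comm {G : Type u} [Group G] (hs : Group.IsSolvable G) (V : Subgroup G) [V.Normal]
    (hV0 : V ≠ ⊥) (hmin : ∀ W : Subgroup G, W.Normal → W ≤ V → W = ⊥ ∨ W = V) :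
    ∀ a ∈ V, ∀ b ∈ V, a * b = b * a := by
  have hle : ⁅V, V⁆ ≤ V := Subgroup.commutator_le_left V V
  rcases hmin ⁅V, V⁆ inferInstance hle with h | h
  · have h1 := Subgroup.commutator_eq_bot_iff_le_centralizer.1 h
    intro a ha b hb
    have h2 := (Subgroup.mem_centralizer_iff.1 (h1 ha)) b hb
    exact h2.symm
  · exfalso
    apply hV0
    obtain ⟨n, hn⟩ := hs.solvable
    have h1 : ∀ n, V ≤ derivedSeries G n := by
      intro n
      induction n with
      | zero => exact le_top
      | succ n ih =>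
        rw [derivedSeries_succ]
        calc V = ⁅V, V⁆ := h.symm
          _ ≤ _ := Subgroup.commutator_mono ih ih
    have h2 := h1 n
    rw [hn] at h2
    exact le_bot_iff.1 h2

/-- A minimal normal subgroup of a finite solvable group has prime exponent. -/
theorem min_exp {G : Type u} [Group G] [Finite G] (V : Subgroup G) [V.Normal]
    (hV0 : V ≠ ⊥) (hmin : ∀ W : Subgroup G, W.Normal → W ≤ V → W = ⊥ ∨ W = V)
    (hc : ∀ a ∈ V, ∀ b ∈ V, a * b = b * a) :
    ∃ p : ℕ, p.Prime ∧ ∀ a ∈ V, a ^ p = 1 := by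
  have hnt : Nontrivial V := (Subgroup.nontrivial_iff_ne_bot V).2 hV0
  have hcard : 1 < Nat.card V := Finite.one_lt_card
  obtain ⟨p, hp, hpd⟩ := Nat.exists_prime_and_dvd hcard.ne'
  refine ⟨p, hp, ?_⟩
  have hcV : ∀ a b : V, Commute a b := fun a b => Subtype.ext (hc a a.2 b b.2)
  let W : Subgroup G :=
    { carrier := {a | a ∈ V ∧ a ^ p = 1}
      mul_mem' := by
        rintro a b ⟨ha, ha'⟩ ⟨hb, hb'⟩
        refine ⟨V.mul_mem ha hb, ?_⟩
        have h1 : Commute a b := hc a ha b hb
        rw [h1.mul_pow, ha', hb', one_mul]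
      one_mem' := ⟨V.one_mem, one_pow p⟩
      inv_mem' := by
        rintro a ⟨ha, ha'⟩
        exact ⟨V.inv_mem ha, by rw [inv_pow, ha', inv_one]⟩ }
  have hWn : W.Normal := by
    constructor
    rintro a ⟨ha, ha'⟩ g
    refine ⟨Subgroup.Normal.conj_mem inferInstance a ha g, ?_⟩
    rw [conj_pow, ha', mul_one, mul_inv_cancel]
  have hWV : W ≤ V := fun a ha => ha.1
  rcases hmin W hWn hWV with h | h
  · exfalso
    have : Fact p.Prime := ⟨hp⟩
    obtain ⟨x, hx⟩ := exists_prime_orderOf_dvd_card' (G := V) p hpd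
    have h1 : (x : G) ∈ W := by
      refine ⟨x.2, ?_⟩
      have h2 : x ^ p = 1 := by rw [← hx]; exact pow_orderOf_eq_one x
      exact congrArg Subtype.val h2
    rw [h, Subgroup.mem_bot] at h1
    have h3 : x = 1 := Subtype.ext h1
    rw [h3, orderOf_one] at hx
    exact hp.one_lt.ne hx
  · intro a ha
    rw [← h] at ha
    exact ha.2

/-- An additive action on an `F_p`-vector space is a homomorphism to the linear group. -/
theorem mk2 (U : Type u) [AddCommGroup U] (p : ℕ) [Fact p.Prime] [Module (ZMod p) U]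
    (G : Type u) [Group G] (f : G → U → U)
    (hadd : ∀ g a b, f g (a + b) = f g a + f g b) (hone : ∀ a, f 1 a = a)
    (hcomp : ∀ g h a, f (g * h) a = f g (f h a)) :
    ∃ (ρ : G →* (U ≃ₗ[ZMod p] U)), ∀ g a, f g a = ρ g a := by
  have h0 : ∀ g, f g 0 = 0 := fun g => by
    have h := hadd g 0 0
    rw [add_zero] at h
    exact (left_eq_add.1 h)
  let act : G → (U →+ U) := fun g =>
    { toFun := fun x => f g x
      map_zero' := h0 g
      map_add' := fun x y => hadd g _ _ }
  let eqv : G → (U ≃ₗ[ZMod p] U) := fun g =>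
    { (AddMonoidHom.toZModLinearMap p (act g)) with
      invFun := fun x => f g⁻¹ x
      left_inv := by
        intro x
        change f g⁻¹ (f g x) = x
        rw [← hcomp, inv_mul_cancel, hone]
      right_inv := by
        intro x
        change f g (f g⁻¹ x) = x
        rw [← hcomp, mul_inv_cancel, hone] }
  have eqv_apply : ∀ (g : G) (x : U), eqv g x = f g x := fun _ _ => rfl
  refine ⟨{ toFun := eqv
            map_one' := ?_
            map_mul' := ?_ }, fun g a => rfl⟩
  · ext x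
    change eqv 1 x = x
    rw [eqv_apply, hone]
  · intro g h
    ext x
    change eqv (g * h) x = eqv g (eqv h x)
    rw [eqv_apply, eqv_apply, eqv_apply, hcomp]

/-- An action on a commutative group of exponent `p`, written additively. -/
theorem mk (A : Type u) [CommGroup A] [Finite A] [Nontrivial A] (p : ℕ) [Fact p.Prime]
    (hexp : ∀ a : A, a ^ p = 1) (G : Type u) [Group G] (f : G → A → A)
    (hmul : ∀ g a b, f g (a * b) = f g a * f g b) (hone : ∀ a, f 1 a = a)
    (hcomp : ∀ g h a, f (g * h) a = f g (f h a)) :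
    ∃ (U : Type u) (_ : AddCommGroup U) (_ : Module (ZMod p) U) (_ : Finite U) (_ : Nontrivial U)
      (ρ : G →* (U ≃ₗ[ZMod p] U)) (φ : A ≃ U), φ 1 = 0 ∧ (∀ a b, φ (a * b) = φ a + φ b) ∧
      ∀ g a, φ (f g a) = ρ g (φ a) := by
  have hz : ∀ x : Additive A, p • x = 0 := fun x =>
    congrArg Additive.ofMul (hexp (Additive.toMul x))
  obtain ⟨ρ, hρ⟩ := @mk2 (Additive A) Additive.addCommGroup p _ (AddCommGroup.zmodModule hz) G _
    (fun g x => Additive.ofMul (f g (Additive.toMul x)))
    (fun g a b => congrArg Additive.ofMul (hmul g _ _))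
    (fun a => congrArg Additive.ofMul (hone _))
    (fun g h a => congrArg Additive.ofMul (hcomp g h _))
  exact ⟨Additive A, Additive.addCommGroup, AddCommGroup.zmodModule hz, inferInstance,
    inferInstance, ρ, (Additive.ofMul : A ≃ Additive A), rfl, fun a b => rfl,
    fun g a => hρ g _⟩

/-- A minimal normal subgroup of a finite solvable group as an irreducible module. -/
theorem cnv : CnvStmt.{u} := by
  intro G _ _ _ hs
  obtain ⟨V, hVn, hV0, hmin⟩ := exists_min G
  have hc := min_comm hs V hV0 hmin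
  obtain ⟨p, hp, hexp⟩ := min_exp V hV0 hmin hc
  have hpf : Fact p.Prime := ⟨hp⟩
  have hnt : Nontrivial V := (Subgroup.nontrivial_iff_ne_bot V).2 hV0
  let cg : CommGroup V := { (inferInstance : Group V) with
    mul_comm := fun a b => Subtype.ext (hc a a.2 b b.2) }
  let f : G → V → V := fun g v => ⟨g * (v : G) * g⁻¹, hVn.conj_mem v v.2 g⟩
  obtain ⟨U, iU, mU, fU, nU, ρ, φ, h0, hadd, hρ⟩ := mk V p
    (fun a => Subtype.ext (hexp a a.2)) G f
    (fun g a b => Subtype.ext (by
      change g * ((a : G) * (b : G)) * g⁻¹ = g * (a : G) * g⁻¹ * (g * (b : G) * g⁻¹)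
      group))
    (fun a => Subtype.ext (by
      change 1 * (a : G) * 1⁻¹ = (a : G)
      group))
    (fun g h a => Subtype.ext (by
      change g * h * (a : G) * (g * h)⁻¹ = g * (h * (a : G) * h⁻¹) * g⁻¹
      group))
  have h0' : φ 1 = 0 := h0
  have hadd' : ∀ a b : V, φ (a * b) = φ a + φ b := hadd
  have hinv : ∀ a : V, φ a⁻¹ = - φ a := by
    intro a
    have h2 := hadd' a a⁻¹
    rw [mul_inv_cancel, h0'] at h2
    exact (neg_eq_of_add_eq_zero_right h2.symm).symm
  refine ⟨p, hpf, V, hVn, U, iU, mU, fU, nU, ρ, φ, hc, ?_, h0', fun g v => hρ g v, ?_, ?_⟩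
  · intro x
    exact ⟨1, by rw [pow_one]; exact Subtype.ext (hexp _ x.2)⟩
  · intro g hg
    ext x
    obtain ⟨a, rfl⟩ := φ.surjective x
    rw [← hρ]
    change φ (f g a) = φ a
    congr 1
    apply Subtype.ext
    change g * (a : G) * g⁻¹ = (a : G)
    rw [hc g hg _ a.2, mul_assoc, mul_inv_cancel, mul_one]
  · intro W hW
    let W' : Subgroup G :=
      { carrier := {a | ∃ h : a ∈ V, φ (⟨a, h⟩ : V) ∈ W}
        mul_mem' := by
          rintro a b ⟨ha, ha'⟩ ⟨hb, hb'⟩
          refine ⟨V.mul_mem ha hb, ?_⟩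
          have h2 := hadd' ⟨a, ha⟩ ⟨b, hb⟩
          have h3 : (⟨a, ha⟩ : V) * ⟨b, hb⟩ = ⟨a * b, V.mul_mem ha hb⟩ := rfl
          rw [h3] at h2
          rw [h2]
          exact W.add_mem ha' hb'
        one_mem' := ⟨V.one_mem, by
          have h3 : (⟨1, V.one_mem⟩ : V) = 1 := rfl
          rw [h3, h0']
          exact W.zero_mem⟩
        inv_mem' := by
          rintro a ⟨ha, ha'⟩
          refine ⟨V.inv_mem ha, ?_⟩
          have h2 := hinv ⟨a, ha⟩
          have h3 : (⟨a, ha⟩ : V)⁻¹ = ⟨a⁻¹, V.inv_mem ha⟩ := rfl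
          rw [h3] at h2
          rw [h2]
          exact W.neg_mem ha' }
    have hWn : W'.Normal := by
      constructor
      rintro a ⟨ha, ha'⟩ g
      refine ⟨hVn.conj_mem a ha g, ?_⟩
      have h2 := hρ g ⟨a, ha⟩
      change φ (f g ⟨a, ha⟩) ∈ W
      rw [h2]
      exact hW (ρ g) ⟨g, rfl⟩ _ ha'
    have hWV : W' ≤ V := fun a ha => ha.1
    rcases hmin W' hWn hWV with h | h
    · refine Or.inl ((Submodule.eq_bot_iff W).2 fun x hx => ?_)
      obtain ⟨a, rfl⟩ := φ.surjective x
      have h2 : (a : G) ∈ W' := ⟨a.2, hx⟩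
      rw [h, Subgroup.mem_bot] at h2
      have h3 : a = 1 := Subtype.ext h2
      rw [h3, h0']
    · refine Or.inr ((Submodule.eq_top_iff').2 fun x => ?_)
      obtain ⟨a, rfl⟩ := φ.surjective x
      have h2 : (a : G) ∈ W' := by
        rw [h]
        exact a.2
      exact h2.2

end Pool.Agent.Helper85.AG
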